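import Pool.Agent.Helper57_CH6.Kern6

/-!
The certificate theorem with the table inequality on allowed profiles only.
-/

set_option autoImplicit false

namespace Pool.Agent.CH6.K3

open Pool.Agent.CH Pool.Agent.CH6

theorem okpB_rel {V : Type*} (E : V → V → Prop) [DecidableRel E]
    (hE : ∀ u v, E u v → ¬ E v u) (h3 : ∀ u v w, E u v → E v w → ¬ E w u)
    (x : Fin 4 → V) (a : V) :
    okpB (code4 (fun i j => rel E (x i) (x j))) (prof4 (fun i => rel E (x i) a)) = true := by
  have lt := fun i j : Fin 4 => rel_lt E (x i) (x j)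
  have la := fun i : Fin 4 => rel_lt E (x i) a
  have ot := fun i j : Fin 4 => rel_okT E hE h3 (x i) (x j) a
  have f0 : d3 (prof4 (fun i => rel E (x i) a)) 0 = rel E (x 0) a :=
    dg_prof (fun i => rel E (x i) a) la 0
  have f1 : d3 (prof4 (fun i => rel E (x i) a)) 1 = rel E (x 1) a :=
    dg_prof (fun i => rel E (x i) a) la 1
  have f2 : d3 (prof4 (fun i => rel E (x i) a)) 2 = rel E (x 2) a :=
    dg_prof (fun i => rel E (x i) a) la 2
  have f3 : d3 (prof4 (fun i => rel E (x i) a)) 3 = rel E (x 3) a :=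
    dg_prof (fun i => rel E (x i) a) la 3
  have t0 : d3 (code4 (fun i j => rel E (x i) (x j))) 0 = rel E (x 0) (x 1) :=
    code_dg (fun i j => rel E (x i) (x j)) lt 0 1 (by decide)
  have t1 : d3 (code4 (fun i j => rel E (x i) (x j))) 1 = rel E (x 0) (x 2) :=
    code_dg (fun i j => rel E (x i) (x j)) lt 0 2 (by decide)
  have t2 : d3 (code4 (fun i j => rel E (x i) (x j))) 2 = rel E (x 1) (x 2) :=
    code_dg (fun i j => rel E (x i) (x j)) lt 1 2 (by decide)
  have t3 : d3 (code4 (fun i j => rel E (x i) (x j))) 3 = rel E (x 0) (x 3) :=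
    code_dg (fun i j => rel E (x i) (x j)) lt 0 3 (by decide)
  have t4 : d3 (code4 (fun i j => rel E (x i) (x j))) 4 = rel E (x 1) (x 3) :=
    code_dg (fun i j => rel E (x i) (x j)) lt 1 3 (by decide)
  have t5 : d3 (code4 (fun i j => rel E (x i) (x j))) 5 = rel E (x 2) (x 3) :=
    code_dg (fun i j => rel E (x i) (x j)) lt 2 3 (by decide)
  unfold okpB
  rw [f0, f1, f2, f3, t0, t1, t2, t3, t4, t5,
    okb_of (lt 0 1) (la 1) (la 0) (ot 0 1), okb_of (lt 0 2) (la 2) (la 0) (ot 0 2),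
    okb_of (lt 1 2) (la 2) (la 1) (ot 1 2), okb_of (lt 0 3) (la 3) (la 0) (ot 0 3),
    okb_of (lt 1 3) (la 3) (la 1) (ot 1 3), okb_of (lt 2 3) (la 3) (la 2) (ot 2 3)]
  rfl

section

variable {V : Type*} [Fintype V] [DecidableEq V] (E : V → V → Prop) [DecidableRel E]

/-- the root sum of the certificate is nonnegative (inequality on allowed profiles only) -/
theorem pos6v (hE : ∀ u v, E u v → ¬ E v u) (h3 : ∀ u v w, E u v → E v w → ¬ E w u) (C D : ℕ)
    (hdeg : ∀ u : V, C * Fintype.card V ≤ D * (Finset.univ.filter (fun v => E u v)).card)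
    (x : Fin 4 → V) (t : ℕ) (ht : t = code4 (fun i j => rel E (x i) (x j)))
    (L : List (ℕ → ℤ)) (m : ℕ → Fin 5 → ℕ)
    (lh : ℕ → List (ℕ × Fin 5 × ℕ)) (X : ℕ → ℕ → ℕ → ℤ)
    (hlh : ∀ f, f < 81 → okpB t f = true → ∀ q ∈ lh f, Hered E C D ∧ okz6 t f q.1 q.2.1)
    (hX : 0 ≤ ∑ a : V, ∑ b : V, X (prof4 (fun i => rel E (x i) a))
      (prof4 (fun i => rel E (x i) b)) (rel E a b))
    (W : ℕ → ℕ → ℕ → ℤ)
    (hW : ∀ f g r, f < 81 → g < 81 → r < 3 → okpB t f = true → okpB t g = true →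
      Wval6 C D L m lh X f g r + Wval6 C D L m lh X g f (inv r) ≤ W f g r) :
    0 ≤ ∑ a : V, ∑ b : V, W (prof4 (fun i => rel E (x i) a))
      (prof4 (fun i => rel E (x i) b)) (rel E a b) := by
  subst ht
  have ok := fun a => okpB_rel E hE h3 x a
  have lt := fun a => prof_lt (fun i => rel E (x i) a) (fun i => rel_lt E _ _)
  have h0 : 0 ≤ ∑ a : V, ∑ b : V, Wval6 C D L m lh X (prof4 (fun i => rel E (x i) a))
      (prof4 (fun i => rel E (x i) b)) (rel E a b) := by
    unfold Wval6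
    simp only [Finset.sum_add_distrib]
    have h1 := sq_nonneg' L (fun a : V => prof4 (fun i => rel E (x i) a))
    have h2 : 0 ≤ ∑ a : V, ∑ b : V, deg6 C D (m (prof4 (fun i => rel E (x i) a)))
        (prof4 (fun i => rel E (x i) b)) (rel E a b) :=
      Finset.sum_nonneg (fun a _ => deg6_nonneg E C D hdeg x a _)
    have h3 : 0 ≤ ∑ a : V, ∑ b : V, ((lh (prof4 (fun i => rel E (x i) a))).map
        (fun q => (q.2.2 : ℤ) * lh6 C D q.1 (prof4 (fun i => rel E (x i) b))
          (rel E a b))).sum := by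
      refine Finset.sum_nonneg (fun a _ => ?_)
      have hl := hlh (prof4 (fun i => rel E (x i) a)) (lt a) (ok a)
      generalize lh (prof4 (fun i => rel E (x i) a)) = l at hl
      induction l with
      | nil => simp
      | cons q l ih =>
        simp only [List.map_cons, List.sum_cons, Finset.sum_add_distrib]
        have g1 := hl q (by simp)
        have g2 := ih (fun q hq => hl q (by simp [hq]))
        have g3 := lh6_nonneg E hE C D g1.1 x a q.1 q.2.1 g1.2
        rw [← Finset.mul_sum]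
        have : (0 : ℤ) ≤ q.2.2 := by positivity
        have := mul_nonneg this g3
        linarith
    linarith
  have h2 : ∑ a : V, ∑ b : V, Wval6 C D L m lh X (prof4 (fun i => rel E (x i) b))
      (prof4 (fun i => rel E (x i) a)) (rel E b a) =
      ∑ a : V, ∑ b : V, Wval6 C D L m lh X (prof4 (fun i => rel E (x i) a))
      (prof4 (fun i => rel E (x i) b)) (rel E a b) := Finset.sum_comm
  have h3 : ∑ a : V, ∑ b : V, (Wval6 C D L m lh X (prof4 (fun i => rel E (x i) a))
      (prof4 (fun i => rel E (x i) b)) (rel E a b) +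
      Wval6 C D L m lh X (prof4 (fun i => rel E (x i) b))
      (prof4 (fun i => rel E (x i) a)) (rel E b a)) ≤
      ∑ a : V, ∑ b : V, W (prof4 (fun i => rel E (x i) a))
      (prof4 (fun i => rel E (x i) b)) (rel E a b) := by
    refine Finset.sum_le_sum (fun a _ => Finset.sum_le_sum (fun b _ => ?_))
    rw [rel_inv E hE a b]
    exact hW _ _ _ (lt a) (lt b) (rel_lt E a b) (ok a) (ok b)
  simp only [Finset.sum_add_distrib] at h3
  rw [h2] at h3
  linarith

end

/-- certificate with heredity rows: all digraphs (inequality on allowed profiles only) -/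
theorem all_of_cert6v (C D : ℕ) (L : ℕ → List (ℕ → ℤ)) (m : ℕ → ℕ → Fin 5 → ℕ)
    (lh : ℕ → ℕ → List (ℕ × Fin 5 × ℕ)) (X : ℕ → ℕ → ℕ → ℕ → ℤ) (W : ℕ → ℕ → ℕ → ℕ → ℤ)
    (R4 : ℕ → Prop) (R5 : ℕ → ℕ → Prop) (c4 : Comp4 R4) (c5 : Comp5 R4 R5)
    (hX : ∀ (V : Type) [Fintype V] [DecidableEq V] [Nonempty V] (E : V → V → Prop)
      [DecidableRel E], (∀ u v, E u v → ¬ E v u) → (∀ u v w, E u v → E v w → ¬ E w u) →
      (∀ u : V, C * Fintype.card V ≤ D * (Finset.univ.filter (fun v => E u v)).card) →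
      Hered E C D → ∀ x : Fin 4 → V, R4 (code4 (fun i j => rel E (x i) (x j))) →
      0 ≤ ∑ a : V, ∑ b : V, X (code4 (fun i j => rel E (x i) (x j)))
        (prof4 (fun i => rel E (x i) a)) (prof4 (fun i => rel E (x i) b)) (rel E a b))
    (F0 : ∀ t f g r, ¬ R4 t → W t f g r = 0)
    (F1 : ∀ t f g r, R4 t → f < 81 → g < 81 → r < 3 → okpB t f = true → okpB t g = true →
      Wval6 C D (L t) (m t) (lh t) (X t) f g r +
        Wval6 C D (L t) (m t) (lh t) (X t) g f (inv r) ≤ W t f g r)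
    (F2 : Neg6 W R5)
    (F4 : ∀ t f, R4 t → f < 81 → okpB t f = true → ∀ q ∈ lh t f, okz6 t f q.1 q.2.1)
    (V : Type) [Fintype V] [DecidableEq V] [Nonempty V] (E : V → V → Prop) [DecidableRel E]
    (hE : ∀ u v, E u v → ¬ E v u) (h3 : ∀ u v w, E u v → E v w → ¬ E w u) :
    ∃ u : V, D * (Finset.univ.filter (fun v => E u v)).card < C * Fintype.card V := by
  refine induct C D ?_ (Fintype.card V) V E rfl hE h3
  intro V _ _ _ E _ hE h3 hdeg hH
  refine core6 E hE h3 W (fun x => ?_) R4 R5 c4 c5 F2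
  by_cases ht : R4 (code4 (fun i j => rel E (x i) (x j)))
  · exact pos6v E hE h3 C D hdeg x _ rfl (L _) (m _) (lh _) (X _)
      (fun f hf hok q hq => ⟨hH, F4 _ f ht hf hok q hq⟩) (hX V E hE h3 hdeg hH x ht) _
      (fun f g r hf hg hr hof hog => F1 _ f g r ht hf hg hr hof hog)
  · simp only [fun f g r => F0 (code4 (fun i j => rel E (x i) (x j))) f g r ht]
    simp

/-- the case without heredity rows and with a hypothesis on the digraph for the further rows -/
theorem dig_of_cert6v (C D : ℕ) (L : ℕ → List (ℕ → ℤ)) (m : ℕ → ℕ → Fin 5 → ℕ)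
    (X : ℕ → ℕ → ℕ → ℕ → ℤ) (W : ℕ → ℕ → ℕ → ℕ → ℤ)
    (R4 : ℕ → Prop) (R5 : ℕ → ℕ → Prop) (c4 : Comp4 R4) (c5 : Comp5 R4 R5)
    (F0 : ∀ t f g r, ¬ R4 t → W t f g r = 0)
    (F1 : ∀ t f g r, R4 t → f < 81 → g < 81 → r < 3 → okpB t f = true → okpB t g = true →
      Wval6 C D (L t) (m t) (fun _ => []) (X t) f g r +
        Wval6 C D (L t) (m t) (fun _ => []) (X t) g f (inv r) ≤ W t f g r)
    (F2 : Neg6 W R5)
    {V : Type*} [Fintype V] [DecidableEq V] [Nonempty V] (E : V → V → Prop) [DecidableRel E]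
    (hE : ∀ u v, E u v → ¬ E v u) (h3 : ∀ u v w, E u v → E v w → ¬ E w u)
    (hX : ∀ x : Fin 4 → V, R4 (code4 (fun i j => rel E (x i) (x j))) →
      0 ≤ ∑ a : V, ∑ b : V, X (code4 (fun i j => rel E (x i) (x j)))
        (prof4 (fun i => rel E (x i) a)) (prof4 (fun i => rel E (x i) b)) (rel E a b)) :
    ∃ u : V, D * (Finset.univ.filter (fun v => E u v)).card < C * Fintype.card V := by
  by_contra hcon
  push Not at hcon
  refine core6 E hE h3 W (fun x => ?_) R4 R5 c4 c5 F2
  by_cases ht : R4 (code4 (fun i j => rel E (x i) (x j)))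
  · exact pos6v E hE h3 C D hcon x _ rfl (L _) (m _) (fun _ => []) (X _)
      (fun f _ _ q hq => absurd hq List.not_mem_nil) (hX x ht) _
      (fun f g r hf hg hr hof hog => F1 _ f g r ht hf hg hr hof hog)
  · simp only [fun f g r => F0 (code4 (fun i j => rel E (x i) (x j))) f g r ht]
    simp

end Pool.Agent.CH6.K3
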