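import Pool.Agent.Helper57_CH6.Pack6

/-!
Kernel evaluation of six-vertex flag certificates: the table inequality (packed rows), the witnesses
of the heredity rows.
-/

set_option autoImplicit false

namespace Pool.Agent.CH6.K3

open Pool.Agent.CH Pool.Agent.CH6

/-- ternary digit -/
def d3 (x i : ℕ) : ℕ := Nat.mod (Nat.div x (Nat.pow 3 i)) 3

/-- the inverse relation -/
def iv (a : ℕ) : ℕ := Nat.mod (Nat.sub 3 a) 3

/-- the indicator of `1` -/
def bt (x : ℕ) : ℕ := Nat.mul x (Nat.sub 2 x)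

/-- the triangle code is not a directed triangle -/
def okb (a b c : ℕ) : Bool :=
  cond (Nat.beq (Nat.add a (Nat.add (Nat.mul 3 b) (Nat.mul 9 c))) 22) false
    (cond (Nat.beq (Nat.add a (Nat.add (Nat.mul 3 b) (Nat.mul 9 c))) 17) false true)

/-- the profile `f` is allowed over the type `t` -/
def okpB (t f : ℕ) : Bool :=
  and (okb (d3 t 0) (d3 f 1) (d3 f 0)) (and (okb (d3 t 1) (d3 f 2) (d3 f 0))
    (and (okb (d3 t 2) (d3 f 2) (d3 f 1)) (and (okb (d3 t 3) (d3 f 3) (d3 f 0))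
    (and (okb (d3 t 4) (d3 f 3) (d3 f 1)) (okb (d3 t 5) (d3 f 3) (d3 f 2))))))

/-- relation of `b` to root `i` -/
def ebN (g r i : ℕ) : ℕ := cond (Nat.beq i 4) r (d3 g i)

/-- bit of a mask -/
def mbB (mask i : ℕ) : Bool := Nat.beq (Nat.mod (Nat.div mask (Nat.pow 2 i)) 2) 1

/-- some root of the mask has an edge from `b` -/
noncomputable def anyB (mask g r : ℕ) : Bool :=
  not (allN 5 (fun i => not (and (mbB mask i) (Nat.beq (ebN g r i) 2))))

/-- all roots of the mask have an edge to `b` -/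
noncomputable def allB (mask g r : ℕ) : Bool :=
  allN 5 (fun i => cond (mbB mask i) (Nat.beq (ebN g r i) 1) true)

/-- the pattern rows: `k < 5` outdegree rows, `k = 4 + mask` heredity rows -/
noncomputable def pat (C D k g r : ℕ) : ℕ :=
  cond (Nat.ble k 4) (Nat.mul D (bt (ebN g r k)))
    (cond (allB (Nat.sub k 4) g r) D
      (cond (anyB (Nat.sub k 4) g r) (Nat.sub D C) (Nat.sub (Nat.mul 2 D) C)))

/-- packed pattern -/
noncomputable def PT (C D w k : ℕ) : ℕ := pk w (fun j => pat C D k (Nat.div j 3) (Nat.mod j 3)) 243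

/-- relation code between the roots `i` and `z` -/
def rcN (t f i z : ℕ) : ℕ :=
  cond (Nat.beq z 4) (d3 f i) (cond (Nat.beq i 4) (iv (d3 f z))
    (cond (Nat.ble (Nat.succ i) z) (d3 t (Nat.add (Nat.div (Nat.mul z (Nat.sub z 1)) 2) i))
      (iv (d3 t (Nat.add (Nat.div (Nat.mul i (Nat.sub i 1)) 2) z)))))

/-- `z` is a witness for the mask -/
noncomputable def okzB (t f mask z : ℕ) : Bool :=
  allN 5 (fun i => cond (mbB mask i) (or (Nat.beq i z) (Nat.beq (rcN t f i z) 1)) true)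

/-- the first witness -/
noncomputable def zs (t f mask : ℕ) : Fin 5 :=
  cond (okzB t f mask 0) 0 (cond (okzB t f mask 1) 1 (cond (okzB t f mask 2) 2
    (cond (okzB t f mask 3) 3 4)))

/-- packed vector -/
noncomputable def Qv (w : ℕ) (vq : ℕ → ℕ → ℕ → ℕ) (t k : ℕ) : ℕ := pk w (fun g => vq t k g) 81

/-- packed row of the sum of products -/
noncomputable def SQ (w : ℕ) (K : ℕ → ℕ) (vq : ℕ → ℕ → ℕ → ℕ) (t f : ℕ) : ℕ :=
  ac (fun k => vq t k f) (fun k => Qv w vq t k) (K t)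

/-- sum of the entries -/
noncomputable def sv (K : ℕ → ℕ) (vq : ℕ → ℕ → ℕ → ℕ) (t f : ℕ) : ℕ :=
  ac (fun k => vq t k f) (fun _ => 1) (K t)

/-- packed row of the linear part -/
noncomputable def LN (pt : ℕ → ℕ) (cq : ℕ → ℕ → ℕ → ℕ) (t f : ℕ) : ℕ :=
  ac (fun k => cq t f k) pt 36

/-- constant of the linear part -/
noncomputable def cl (C D : ℕ) (cq : ℕ → ℕ → ℕ → ℕ) (t f : ℕ) : ℕ :=
  ac (fun k => cq t f k) (fun k => cond (Nat.ble k 4) C D) 36

/-- the entry check -/
noncomputable def e1 (C D w : ℕ) (K : ℕ → ℕ) (vq : ℕ → ℕ → ℕ → ℕ) (off : ℕ) (pt : ℕ → ℕ)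
    (cq : ℕ → ℕ → ℕ → ℕ) (S OFF : ℕ) (tw : ℕ → ℕ → ℕ → ℕ → ℕ) (XK : ℕ → ℕ → ℕ → ℕ → ℕ) (XO : ℕ)
    (t f g r : ℕ) : Bool :=
  Nat.ble
    (Nat.add (Nat.add (Nat.mul 2 (gt w (SQ w K vq t f) g))
        (Nat.add (Nat.mul (Nat.mul 2 (K t)) (Nat.mul off off)) (Nat.mul S OFF)))
      (Nat.add (gt w (LN pt cq t f) (Nat.add (Nat.mul 3 g) r))
        (Nat.add (gt w (LN pt cq t g) (Nat.add (Nat.mul 3 f) (iv r))) (XK t f g r))))
    (Nat.add (Nat.mul S (tw t f g r))
      (Nat.add (Nat.add (Nat.mul (Nat.mul 2 off) (Nat.add (sv K vq t f) (sv K vq t g)))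
        (Nat.add (cl C D cq t f) (cl C D cq t g))) XO))

/-- all entries of a row -/
noncomputable def rowC (C D w : ℕ) (K : ℕ → ℕ) (vq : ℕ → ℕ → ℕ → ℕ) (off : ℕ) (pt : ℕ → ℕ)
    (cq : ℕ → ℕ → ℕ → ℕ) (S OFF : ℕ) (tw : ℕ → ℕ → ℕ → ℕ → ℕ) (XK : ℕ → ℕ → ℕ → ℕ → ℕ) (XO : ℕ)
    (t f : ℕ) : Bool :=
  cond (okpB t f) (allN 81 (fun g => cond (okpB t g)
    (and (e1 C D w K vq off pt cq S OFF tw XK XO t f g 0)
      (and (e1 C D w K vq off pt cq S OFF tw XK XO t f g 1)
        (e1 C D w K vq off pt cq S OFF tw XK XO t f g 2))) true)) true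

/-- all rows of a type -/
noncomputable def typC (C D w : ℕ) (K : ℕ → ℕ) (vq : ℕ → ℕ → ℕ → ℕ) (off : ℕ) (pt : ℕ → ℕ)
    (cq : ℕ → ℕ → ℕ → ℕ) (S OFF : ℕ) (tw : ℕ → ℕ → ℕ → ℕ → ℕ) (XK : ℕ → ℕ → ℕ → ℕ → ℕ) (XO : ℕ)
    (t : ℕ) : Bool :=
  allN 81 (fun f => rowC C D w K vq off pt cq S OFF tw XK XO t f)

/-- witnesses of the heredity rows of a type -/
noncomputable def witC (cq : ℕ → ℕ → ℕ → ℕ) (t : ℕ) : Bool :=
  allN 81 (fun f => cond (okpB t f) (allN 31 (fun k =>
    cond (Nat.beq (cq t f (Nat.add 5 k)) 0) true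
      (okzB t f (Nat.succ k) ((zs t f (Nat.succ k) : Fin 5) : ℕ)))) true)

/-- the square vectors -/
def Lv (K : ℕ → ℕ) (vq : ℕ → ℕ → ℕ → ℕ) (off : ℕ) (t : ℕ) : List (ℕ → ℤ) :=
  (List.range (K t)).map (fun k g => (vq t k g : ℤ) - off)

/-- the degree multipliers -/
def mv (cq : ℕ → ℕ → ℕ → ℕ) (t f : ℕ) (i : Fin 5) : ℕ := cq t f i

/-- the heredity rows -/
noncomputable def lhv (cq : ℕ → ℕ → ℕ → ℕ) (t f : ℕ) : List (ℕ × Fin 5 × ℕ) :=
  ((List.range 31).filter (fun k => cq t f (5 + k) ≠ 0)).map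
    (fun k => (k + 1, zs t f (k + 1), cq t f (5 + k)))

/-- the value function -/
def Wt (S OFF : ℕ) (tw : ℕ → ℕ → ℕ → ℕ → ℕ) (t f g r : ℕ) : ℤ := (S : ℤ) * ((tw t f g r : ℤ) - OFF)

/-! ### elementary facts -/

theorem d3_eq (x i : ℕ) : d3 x i = x / 3 ^ i % 3 := rfl

theorem d3_lt (x i : ℕ) : d3 x i < 3 := Nat.mod_lt _ (by decide)

theorem iv_eq {a : ℕ} (h : a < 3) : iv a = inv a := by
  have : a = 0 ∨ a = 1 ∨ a = 2 := by omega
  rcases this with rfl | rfl | rfl <;> rfl

theorem inv_lt (a : ℕ) : inv a < 3 := by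
  unfold inv; split_ifs <;> omega

theorem bt_eq {a : ℕ} (h : a < 3) : (bt a : ℤ) = bit1 a := by
  have : a = 0 ∨ a = 1 ∨ a = 2 := by omega
  rcases this with rfl | rfl | rfl <;> rfl

theorem okb_of {a b c : ℕ} (ha : a < 3) (hb : b < 3) (hc : c < 3) (h : okT a b c) :
    okb a b c = true := by
  obtain ⟨h1, h2⟩ := h
  have e : Nat.add a (Nat.add (Nat.mul 3 b) (Nat.mul 9 c)) = a + (3 * b + 9 * c) := rfl
  unfold okb
  rw [e]
  have n1 : Nat.beq (a + (3 * b + 9 * c)) 22 = false := by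
    rw [Bool.eq_false_iff]
    intro h3
    have h4 := Nat.eq_of_beq_eq_true h3
    apply h1
    omega
  have n2 : Nat.beq (a + (3 * b + 9 * c)) 17 = false := by
    rw [Bool.eq_false_iff]
    intro h3
    have h4 := Nat.eq_of_beq_eq_true h3
    apply h2
    omega
  rw [n1, n2]
  rfl

theorem allN_iff {n : ℕ} {p : ℕ → Bool} : allN n p = true ↔ ∀ k, k < n → p k = true := by
  constructor
  · exact allN_spec
  · intro h
    induction n with
    | zero => rfl
    | succ n ih =>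
      show and (p n) (allN n p) = true
      rw [Bool.and_eq_true]
      exact ⟨h n (by omega), ih (fun k hk => h k (by omega))⟩

theorem mbB_iff (mask : ℕ) (i : Fin 5) : mbB mask i = true ↔ mb mask i := by
  constructor
  · intro h
    exact Nat.eq_of_beq_eq_true h
  · intro h
    have h2 : Nat.mod (Nat.div mask (Nat.pow 2 (i : ℕ))) 2 = 1 := h
    unfold mbB
    rw [h2]
    rfl

theorem ebN_eq (g r : ℕ) (i : Fin 5) : ebN g r i = eb g r i := by
  unfold ebN eb
  by_cases h : i = 4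
  · subst h; rfl
  · have h2 : Nat.beq (i : ℕ) 4 = false := by
      rw [Bool.eq_false_iff]
      intro h3
      have := Nat.eq_of_beq_eq_true h3
      exact h (Fin.ext this)
    rw [h2, if_neg h]
    rfl

theorem eb_lt (g r : ℕ) (hr : r < 3) (i : Fin 5) : eb g r i < 3 := by
  unfold eb
  split_ifs
  · exact hr
  · exact Nat.mod_lt _ (by decide)

theorem allB_iff (mask g r : ℕ) : allB mask g r = true ↔ ∀ i : Fin 5, mb mask i → eb g r i = 1 := by
  unfold allB
  rw [allN_iff]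
  constructor
  · intro h i hi
    have h1 := h i i.2
    rw [(mbB_iff mask i).2 hi, ebN_eq] at h1
    exact Nat.eq_of_beq_eq_true h1
  · intro h k hk
    by_cases hb : mbB mask k = true
    · rw [hb]
      have h1 := h ⟨k, hk⟩ ((mbB_iff mask ⟨k, hk⟩).1 hb)
      rw [← ebN_eq] at h1
      show Nat.beq (ebN g r k) 1 = true
      rw [show ebN g r k = 1 from h1]
      rfl
    · rw [Bool.not_eq_true] at hb
      rw [hb]
      rfl

theorem anyB_iff (mask g r : ℕ) : anyB mask g r = true ↔ ∃ i : Fin 5, mb mask i ∧ eb g r i = 2 := by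
  unfold anyB
  rw [Bool.not_eq_true', Bool.eq_false_iff, Ne, allN_iff]
  constructor
  · intro h
    by_contra hc
    apply h
    intro k hk
    rw [Bool.not_eq_true', Bool.eq_false_iff]
    intro h2
    rw [Bool.and_eq_true] at h2
    apply hc
    refine ⟨⟨k, hk⟩, (mbB_iff mask ⟨k, hk⟩).1 h2.1, ?_⟩
    rw [← ebN_eq]
    exact Nat.eq_of_beq_eq_true h2.2
  · rintro ⟨i, h1, h2⟩ h
    have h3 := h i i.2
    rw [Bool.not_eq_true', Bool.eq_false_iff] at h3
    apply h3
    rw [Bool.and_eq_true]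
    refine ⟨(mbB_iff mask i).2 h1, ?_⟩
    rw [ebN_eq, h2]
    rfl

/-- outdegree pattern -/
theorem pat_deg (C D : ℕ) (i : Fin 5) (g r : ℕ) (hr : r < 3) :
    (pat C D i g r : ℤ) = D * bit1 (eb g r i) := by
  unfold pat
  have h : Nat.ble (i : ℕ) 4 = true := Nat.ble_eq_true_of_le (by omega)
  rw [h]
  show ((D * bt (ebN g r i) : ℕ) : ℤ) = _
  rw [ebN_eq]
  push_cast
  rw [bt_eq (eb_lt g r hr i)]

/-- heredity pattern -/
theorem pat_lh (C D : ℕ) (hCD : C ≤ D) (k g r : ℕ) (hk : k < 31) :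
    (pat C D (5 + k) g r : ℤ) = lh6 C D (k + 1) g r + D := by
  unfold pat
  have h : Nat.ble (5 + k) 4 = false := by
    rw [Bool.eq_false_iff]
    intro h3
    have := Nat.le_of_ble_eq_true h3
    omega
  have e : Nat.sub (5 + k) 4 = k + 1 := by
    show 5 + k - 4 = k + 1
    omega
  rw [h, e]
  show ((cond (allB (k + 1) g r) D
      (cond (anyB (k + 1) g r) (Nat.sub D C) (Nat.sub (Nat.mul 2 D) C)) : ℕ) : ℤ) = _
  unfold lh6
  -- the mask is not empty
  have hne : ∃ i : Fin 5, mb (k + 1) i := by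
    have : ∀ k < 31, ∃ i : Fin 5, mb (k + 1) i := by decide +kernel
    exact this k hk
  by_cases ha : allB (k + 1) g r = true
  · have h1 := (allB_iff (k + 1) g r).1 ha
    have h2 : ¬ ∃ i : Fin 5, mb (k + 1) i ∧ eb g r i = 2 := by
      rintro ⟨i, hi, h3⟩
      have := h1 i hi
      omega
    rw [ha, if_neg h2, if_pos h1]
    show (D : ℤ) = _
    ring
  · have h1 : ¬ ∀ i : Fin 5, mb (k + 1) i → eb g r i = 1 := fun h => ha ((allB_iff _ _ _).2 h)
    rw [Bool.not_eq_true] at ha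
    rw [ha, if_neg h1]
    by_cases hb : anyB (k + 1) g r = true
    · have h2 := (anyB_iff (k + 1) g r).1 hb
      rw [hb, if_pos h2]
      show ((D - C : ℕ) : ℤ) = _
      rw [Nat.cast_sub hCD]
      ring
    · have h2 : ¬ ∃ i : Fin 5, mb (k + 1) i ∧ eb g r i = 2 := fun h => hb ((anyB_iff _ _ _).2 h)
      rw [Bool.not_eq_true] at hb
      rw [hb, if_neg h2]
      show ((2 * D - C : ℕ) : ℤ) = _
      rw [Nat.cast_sub (by omega)]
      push_cast
      ring

theorem pat_le (C D k g r : ℕ) (hr : r < 3) : pat C D k g r ≤ 2 * D := by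
  unfold pat
  cases Nat.ble k 4
  · cases allB (Nat.sub k 4) g r
    · cases anyB (Nat.sub k 4) g r
      · show 2 * D - C ≤ 2 * D
        omega
      · show D - C ≤ 2 * D
        omega
    · show D ≤ 2 * D
      omega
  · show D * bt (ebN g r k) ≤ 2 * D
    have h1 : ebN g r k < 3 := by
      unfold ebN
      cases Nat.beq k 4
      · exact d3_lt _ _
      · exact hr
    have h2 : bt (ebN g r k) ≤ 1 := by
      generalize ebN g r k = x at h1
      have : x = 0 ∨ x = 1 ∨ x = 2 := by omega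
      rcases this with rfl | rfl | rfl <;> decide
    calc D * bt (ebN g r k) ≤ D * 1 := Nat.mul_le_mul_left _ h2
      _ ≤ 2 * D := by omega

/-! ### the packed rows -/

theorem SQ_digit (w A : ℕ) (K : ℕ → ℕ) (vq : ℕ → ℕ → ℕ → ℕ) (hv : ∀ t k g, vq t k g < A)
    (t f g : ℕ) (hK : K t * A * A ≤ 2 ^ w) (hg : g < 81) (h0 : 0 < K t) :
    gt w (SQ w K vq t f) g = ∑ k ∈ Finset.range (K t), vq t k f * vq t k g := by
  unfold SQ Qv
  rw [ac_pk, gt_pk w _ _ 81 g hg]
  intro j
  have hA : 0 < A := lt_of_le_of_lt (Nat.zero_le _) (hv 0 0 0)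
  calc ∑ k ∈ Finset.range (K t), vq t k f * vq t k j
      < ∑ _k ∈ Finset.range (K t), A * A := by
        refine Finset.sum_lt_sum_of_nonempty ⟨0, Finset.mem_range.2 h0⟩ (fun k _ => ?_)
        exact Nat.mul_lt_mul'' (hv t k f) (hv t k j)
    _ = K t * A * A := by
        rw [Finset.sum_const, Finset.card_range, smul_eq_mul]
        ring
    _ ≤ 2 ^ w := hK

theorem sv_eq (K : ℕ → ℕ) (vq : ℕ → ℕ → ℕ → ℕ) (t f : ℕ) :
    sv K vq t f = ∑ k ∈ Finset.range (K t), vq t k f := by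
  unfold sv
  rw [ac_eq]
  simp

theorem LN_digit (C D w A : ℕ) (pt : ℕ → ℕ) (hpt : ∀ k, k < 36 → pt k = PT C D w k)
    (cq : ℕ → ℕ → ℕ → ℕ) (hc : ∀ t f k, cq t f k < A) (hA : 36 * A * (2 * D) ≤ 2 ^ w)
    (hD : 0 < D) (t f g r : ℕ) (hg : g < 81) (hr : r < 3) :
    gt w (LN pt cq t f) (3 * g + r) = ∑ k ∈ Finset.range 36, cq t f k * pat C D k g r := by
  unfold LN
  have e1 : ac (fun k => cq t f k) pt 36 =
      ac (fun k => cq t f k) (fun k => PT C D w k) 36 := by
    rw [ac_eq, ac_eq]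
    exact Finset.sum_congr rfl (fun k hk => by rw [hpt k (Finset.mem_range.1 hk)])
  rw [e1]
  unfold PT
  rw [ac_pk, gt_pk w _ _ 243 (3 * g + r) (by omega)]
  · refine Finset.sum_congr rfl (fun k _ => ?_)
    have h1 : Nat.div (3 * g + r) 3 = g := by
      show (3 * g + r) / 3 = g
      omega
    have h2 : Nat.mod (3 * g + r) 3 = r := by
      show (3 * g + r) % 3 = r
      omega
    rw [h1, h2]
  · intro j
    have hA0 : 0 < A := lt_of_le_of_lt (Nat.zero_le _) (hc 0 0 0)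
    calc ∑ k ∈ Finset.range 36, cq t f k * pat C D k (Nat.div j 3) (Nat.mod j 3)
        < ∑ _k ∈ Finset.range 36, A * (2 * D) := by
          refine Finset.sum_lt_sum_of_nonempty ⟨0, by simp⟩ (fun k _ => ?_)
          have h1 := pat_le C D k (Nat.div j 3) (Nat.mod j 3) (Nat.mod_lt _ (by decide))
          have h2 := hc t f k
          calc cq t f k * pat C D k (Nat.div j 3) (Nat.mod j 3)
              ≤ cq t f k * (2 * D) := Nat.mul_le_mul_left _ h1
            _ < A * (2 * D) := Nat.mul_lt_mul_of_pos_right h2 (by omega)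
      _ = 36 * A * (2 * D) := by
          rw [Finset.sum_const, Finset.card_range, smul_eq_mul]
          ring
      _ ≤ 2 ^ w := hA

theorem cl_eq (C D : ℕ) (cq : ℕ → ℕ → ℕ → ℕ) (t f : ℕ) :
    cl C D cq t f = C * (∑ k ∈ Finset.range 5, cq t f k) +
      D * ∑ k ∈ Finset.range 31, cq t f (5 + k) := by
  have e1 : ∑ k ∈ Finset.range 5, cq t f k * cond (Nat.ble k 4) C D =
      C * ∑ k ∈ Finset.range 5, cq t f k := by
    rw [Finset.mul_sum]
    refine Finset.sum_congr rfl (fun k hk => ?_)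
    have hb : Nat.ble k 4 = true :=
      Nat.ble_eq_true_of_le (by have := Finset.mem_range.1 hk; omega)
    rw [hb, cond_true]
    ring
  have e2 : ∑ k ∈ Finset.range 31, cq t f (5 + k) * cond (Nat.ble (5 + k) 4) C D =
      D * ∑ k ∈ Finset.range 31, cq t f (5 + k) := by
    rw [Finset.mul_sum]
    refine Finset.sum_congr rfl (fun k _ => ?_)
    have hb : Nat.ble (5 + k) 4 = false := by
      rw [Bool.eq_false_iff]
      intro h3
      have := Nat.le_of_ble_eq_true h3
      omega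
    rw [hb, cond_false]
    ring
  unfold cl
  rw [ac_eq, show (36 : ℕ) = 5 + 31 from rfl, Finset.sum_range_add, e1, e2]

/-! ### the certificate value -/

theorem sqV_Lv (K : ℕ → ℕ) (vq : ℕ → ℕ → ℕ → ℕ) (off t f g : ℕ) :
    sqV (Lv K vq off t) f g =
      ((∑ k ∈ Finset.range (K t), vq t k f * vq t k g : ℕ) : ℤ)
        - off * ((∑ k ∈ Finset.range (K t), vq t k f : ℕ) : ℤ)
        - off * ((∑ k ∈ Finset.range (K t), vq t k g : ℕ) : ℤ) + K t * off * off := by
  unfold sqV Lv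
  generalize K t = n
  induction n with
  | zero => simp
  | succ n ih =>
    rw [List.range_succ, List.map_append, List.map_append, List.sum_append, ih,
      Finset.sum_range_succ, Finset.sum_range_succ, Finset.sum_range_succ]
    simp only [List.map_cons, List.map_nil, List.sum_cons, List.sum_nil]
    push_cast
    ring

theorem lin_eq (C D : ℕ) (hCD : C ≤ D) (cq : ℕ → ℕ → ℕ → ℕ) (t f g r : ℕ) (hr : r < 3) :
    deg6 C D (mv cq t f) g r +
      ((lhv cq t f).map (fun q => (q.2.2 : ℤ) * lh6 C D q.1 g r)).sum =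
      ((∑ k ∈ Finset.range 36, cq t f k * pat C D k g r : ℕ) : ℤ) - (cl C D cq t f : ℤ) := by
  have h1 : deg6 C D (mv cq t f) g r =
      ((∑ k ∈ Finset.range 5, cq t f k * pat C D k g r : ℕ) : ℤ) -
        C * ((∑ k ∈ Finset.range 5, cq t f k : ℕ) : ℤ) := by
    unfold deg6 mv
    push_cast
    rw [← Fin.sum_univ_eq_sum_range (fun k => (cq t f k : ℤ) * (pat C D k g r : ℤ)),
      ← Fin.sum_univ_eq_sum_range (fun k => (cq t f k : ℤ)), Finset.mul_sum,
      ← Finset.sum_sub_distrib]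
    refine Finset.sum_congr rfl (fun i _ => ?_)
    rw [pat_deg C D i g r hr]
    ring
  have h2 : ∀ n, n ≤ 31 → ((((List.range n).filter (fun k => cq t f (5 + k) ≠ 0)).map
      (fun k => (k + 1, zs t f (k + 1), cq t f (5 + k)))).map
        (fun q => (q.2.2 : ℤ) * lh6 C D q.1 g r)).sum =
      ((∑ k ∈ Finset.range n, cq t f (5 + k) * pat C D (5 + k) g r : ℕ) : ℤ) -
        D * ((∑ k ∈ Finset.range n, cq t f (5 + k) : ℕ) : ℤ) := by
    intro n
    induction n with
    | zero => intro _; simp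
    | succ n ih =>
      intro hn
      rw [List.range_succ, List.filter_append, List.map_append, List.map_append, List.sum_append,
        ih (by omega), Finset.sum_range_succ, Finset.sum_range_succ]
      have h3 := pat_lh C D hCD n g r (by omega)
      by_cases hz : cq t f (5 + n) = 0
      · simp [hz]
      · simp only [List.filter_cons, List.filter_nil, ne_eq, hz, not_false_eq_true, decide_true,
          if_true, List.map_cons, List.map_nil, List.sum_cons, List.sum_nil]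
        push_cast
        rw [h3]
        ring
  have h3 := h2 31 (le_refl _)
  unfold lhv
  rw [h1, h3, cl_eq, show (36 : ℕ) = 5 + 31 from rfl, Finset.sum_range_add]
  push_cast
  ring

/-- THE TABLE INEQUALITY from the kernel check. -/
theorem F1_of (C D w A A2 : ℕ) (hCD : C ≤ D) (hD : 0 < D) (K : ℕ → ℕ) (vq : ℕ → ℕ → ℕ → ℕ)
    (off : ℕ) (pt : ℕ → ℕ) (cq : ℕ → ℕ → ℕ → ℕ) (S OFF : ℕ) (tw XK : ℕ → ℕ → ℕ → ℕ → ℕ) (XO : ℕ)
    (X : ℕ → ℕ → ℕ → ℕ → ℤ)
    (hv : ∀ t k g, vq t k g < A) (hpt : ∀ k, k < 36 → pt k = PT C D w k)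
    (hc : ∀ t f k, cq t f k < A2) (hA2 : 36 * A2 * (2 * D) ≤ 2 ^ w)
    (t : ℕ) (hK0 : 0 < K t) (hK : K t * A * A ≤ 2 ^ w)
    (h : typC C D w K vq off pt cq S OFF tw XK XO t = true)
    (hX : ∀ f g r, f < 81 → g < 81 → r < 3 → okpB t f = true → okpB t g = true →
      X t f g r + X t g f (inv r) ≤ (XK t f g r : ℤ) - XO) :
    ∀ f g r, f < 81 → g < 81 → r < 3 → okpB t f = true → okpB t g = true →
      Wval6 C D (Lv K vq off t) (mv cq t) (lhv cq t) (X t) f g r +
        Wval6 C D (Lv K vq off t) (mv cq t) (lhv cq t) (X t) g f (inv r) ≤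
          Wt S OFF tw t f g r := by
  intro f g r hf hg hr of og
  have h1 := allN_spec h f hf
  unfold rowC at h1
  rw [of, cond_true] at h1
  have h2 := allN_spec h1 g hg
  rw [og, cond_true] at h2
  have h3 : e1 C D w K vq off pt cq S OFF tw XK XO t f g r = true := by
    have h4 : and (e1 C D w K vq off pt cq S OFF tw XK XO t f g 0)
      (and (e1 C D w K vq off pt cq S OFF tw XK XO t f g 1)
        (e1 C D w K vq off pt cq S OFF tw XK XO t f g 2)) = true := h2
    rw [Bool.and_eq_true, Bool.and_eq_true] at h4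
    have : r = 0 ∨ r = 1 ∨ r = 2 := by omega
    rcases this with rfl | rfl | rfl
    · exact h4.1
    · exact h4.2.1
    · exact h4.2.2
  unfold e1 at h3
  have h4 := Nat.le_of_ble_eq_true h3
  simp only [Nat.add_eq, Nat.mul_eq] at h4
  rw [SQ_digit w A K vq hv t f g hK hg hK0,
    LN_digit C D w A2 pt hpt cq hc hA2 hD t f g r hg hr, iv_eq hr,
    LN_digit C D w A2 pt hpt cq hc hA2 hD t g f (inv r) hf (inv_lt r), sv_eq, sv_eq] at h4
  have h5 : (_ : ℤ) ≤ _ := Int.ofNat_le.2 h4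
  have hx := hX f g r hf hg hr of og
  have l1 := lin_eq C D hCD cq t f g r hr
  have l2 := lin_eq C D hCD cq t g f (inv r) (inv_lt r)
  have s1 := sqV_Lv K vq off t f g
  have s2 := sqV_Lv K vq off t g f
  have s3 : ∑ k ∈ Finset.range (K t), vq t k g * vq t k f =
      ∑ k ∈ Finset.range (K t), vq t k f * vq t k g :=
    Finset.sum_congr rfl (fun k _ => Nat.mul_comm _ _)
  rw [s3] at s2
  unfold Wval6 Wt
  generalize (∑ k ∈ Finset.range (K t), vq t k f * vq t k g) = a1 at *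
  generalize (∑ k ∈ Finset.range (K t), vq t k f) = a2 at *
  generalize (∑ k ∈ Finset.range (K t), vq t k g) = a3 at *
  generalize (∑ k ∈ Finset.range 36, cq t f k * pat C D k g r) = a4 at *
  generalize (∑ k ∈ Finset.range 36, cq t g k * pat C D k f (inv r)) = a5 at *
  push_cast at h5
  rw [s1, s2]
  nlinarith [h5, hx, l1, l2]

/-! ### witnesses -/

theorem okzB_of {t f mask : ℕ} {z : Fin 5} (h : okzB t f mask z = true) : okz6 t f mask z := by
  unfold okzB at h
  intro i hi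
  have h1 := allN_spec h i i.2
  rw [(mbB_iff mask i).2 hi] at h1
  have h2 : or (Nat.beq (i : ℕ) (z : ℕ)) (Nat.beq (rcN t f i z) 1) = true := h1
  rw [Bool.or_eq_true] at h2
  rcases h2 with h2 | h2
  · left
    exact Fin.ext (Nat.eq_of_beq_eq_true h2)
  · by_cases hiz : i = z
    · left; exact hiz
    right
    have h3 := Nat.eq_of_beq_eq_true h2
    rw [← h3]
    unfold rcN rc6
    by_cases hz : z = 4
    · rw [if_pos hz, hz]
      rfl
    · have n1 : Nat.beq (z : ℕ) 4 = false := by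
        rw [Bool.eq_false_iff]
        intro h4
        exact hz (Fin.ext (Nat.eq_of_beq_eq_true h4))
      rw [n1, if_neg hz]
      by_cases hi4 : i = 4
      · rw [if_pos hi4, hi4]
        show inv (dg f z) = iv (d3 f z)
        rw [iv_eq (d3_lt _ _)]
        rfl
      · have n2 : Nat.beq (i : ℕ) 4 = false := by
          rw [Bool.eq_false_iff]
          intro h4
          exact hi4 (Fin.ext (Nat.eq_of_beq_eq_true h4))
        rw [n2, if_neg hi4]
        by_cases hlt : i < z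
        · have n3 : Nat.ble (Nat.succ (i : ℕ)) (z : ℕ) = true := Nat.ble_eq_true_of_le hlt
          rw [n3, if_pos hlt]
          rfl
        · have n3 : Nat.ble (Nat.succ (i : ℕ)) (z : ℕ) = false := by
            rw [Bool.eq_false_iff]
            intro h4
            have := Nat.le_of_ble_eq_true h4
            exact hlt this
          rw [n3, if_neg hlt]
          show inv _ = iv (d3 t _)
          rw [iv_eq (d3_lt _ _)]
          rfl

theorem F4_of (cq : ℕ → ℕ → ℕ → ℕ) (t : ℕ) (h : witC cq t = true) :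
    ∀ f, f < 81 → okpB t f = true → ∀ q ∈ lhv cq t f, okz6 t f q.1 q.2.1 := by
  intro f hf of q hq
  have h1 := allN_spec h f hf
  rw [of, cond_true] at h1
  unfold lhv at hq
  obtain ⟨k, hk, rfl⟩ := List.mem_map.1 hq
  rw [List.mem_filter] at hk
  obtain ⟨hk1, hk2⟩ := hk
  have hk3 : cq t f (5 + k) ≠ 0 := by simpa using hk2
  have hk4 : k < 31 := List.mem_range.1 hk1
  have h2 := allN_spec h1 k hk4
  have n1 : Nat.beq (cq t f (Nat.add 5 k)) 0 = false := by
    rw [Bool.eq_false_iff]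
    intro h4
    exact hk3 (Nat.eq_of_beq_eq_true h4)
  rw [n1] at h2
  exact okzB_of h2

end Pool.Agent.CH6.K3
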