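import Pool.Agent.Helper93_CH6.Fin6

/-!
Packed numbers for the kernel evaluation of six-vertex certificates.
-/

set_option autoImplicit false

namespace Pool.Agent.CH6.K3

/-- the number with the digits `a 0, a 1, ..` in base `2 ^ w` -/
noncomputable def pk (w : ℕ) (a : ℕ → ℕ) (n : ℕ) : ℕ :=
  Nat.rec (motive := fun _ => ℕ) 0
    (fun k ih => Nat.add ih (Nat.shiftLeft (a k) (Nat.mul w k))) n

/-- linear combination -/
noncomputable def ac (c P : ℕ → ℕ) (n : ℕ) : ℕ :=
  Nat.rec (motive := fun _ => ℕ) 0 (fun k ih => Nat.add ih (Nat.mul (c k) (P k))) n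

/-- digit of a packed number -/
def gt (w x j : ℕ) : ℕ := Nat.mod (Nat.shiftRight x (Nat.mul w j)) (Nat.pow 2 w)

/-- bounded quantifier -/
noncomputable def allN (n : ℕ) (p : ℕ → Bool) : Bool :=
  Nat.rec (motive := fun _ => Bool) true (fun k ih => and (p k) ih) n

theorem allN_spec {p : ℕ → Bool} : ∀ {n : ℕ}, allN n p = true → ∀ k, k < n → p k = true := by
  intro n
  induction n with
  | zero => intro _ k hk; omega
  | succ n ih =>
    intro h k hk
    have h2 : and (p n) (allN n p) = true := h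
    rw [Bool.and_eq_true] at h2
    by_cases hkn : k = n
    · rw [hkn]; exact h2.1
    · exact ih h2.2 k (by omega)

theorem pk_succ (w : ℕ) (a : ℕ → ℕ) (n : ℕ) : pk w a (n + 1) = pk w a n + a n * (2 ^ w) ^ n := by
  show Nat.add (pk w a n) (Nat.shiftLeft (a n) (Nat.mul w n)) = _
  have h : Nat.shiftLeft (a n) (Nat.mul w n) = a n * (2 ^ w) ^ n := by
    have := Nat.shiftLeft_eq (a n) (w * n)
    rw [pow_mul] at this
    exact this
  rw [h]
  rfl

theorem ac_eq (c P : ℕ → ℕ) (n : ℕ) : ac c P n = ∑ k ∈ Finset.range n, c k * P k := by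
  induction n with
  | zero => rfl
  | succ n ih =>
    rw [Finset.sum_range_succ, ← ih]
    rfl

theorem pk_eq (w : ℕ) (a : ℕ → ℕ) (n : ℕ) :
    pk w a n = ∑ j ∈ Finset.range n, a j * (2 ^ w) ^ j := by
  induction n with
  | zero => rfl
  | succ n ih => rw [pk_succ, Finset.sum_range_succ, ih]

theorem pk_lt (w : ℕ) (a : ℕ → ℕ) (ha : ∀ j, a j < 2 ^ w) (n : ℕ) : pk w a n < (2 ^ w) ^ n := by
  induction n with
  | zero => exact Nat.one_pos
  | succ n ih =>
    rw [pk_succ, pow_succ]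
    have h1 : a n + 1 ≤ 2 ^ w := ha n
    have h2 : (a n + 1) * (2 ^ w) ^ n ≤ 2 ^ w * (2 ^ w) ^ n := Nat.mul_le_mul_right _ h1
    calc pk w a n + a n * (2 ^ w) ^ n < (2 ^ w) ^ n + a n * (2 ^ w) ^ n := by omega
      _ = (a n + 1) * (2 ^ w) ^ n := by ring
      _ ≤ 2 ^ w * (2 ^ w) ^ n := h2
      _ = (2 ^ w) ^ n * 2 ^ w := by ring

theorem pk_congr (w : ℕ) (a b : ℕ → ℕ) (n : ℕ) (h : ∀ j, j < n → a j = b j) :
    pk w a n = pk w b n := by
  rw [pk_eq, pk_eq]
  exact Finset.sum_congr rfl (fun j hj => by rw [h j (Finset.mem_range.1 hj)])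

theorem gt_eq (w x j : ℕ) : gt w x j = x / (2 ^ w) ^ j % 2 ^ w := by
  show (x >>> (w * j)) % 2 ^ w = _
  rw [Nat.shiftRight_eq_div_pow, pow_mul]

theorem gt_lt (w x j : ℕ) : gt w x j < 2 ^ w := by
  rw [gt_eq]
  exact Nat.mod_lt _ (Nat.two_pow_pos w)

theorem gt_pk (w : ℕ) (a : ℕ → ℕ) (ha : ∀ j, a j < 2 ^ w) :
    ∀ n j, j < n → gt w (pk w a n) j = a j := by
  have hB : 0 < 2 ^ w := Nat.two_pow_pos w
  intro n
  induction n with
  | zero => intro j hj; omega
  | succ n ih =>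
    intro j hj
    rw [gt_eq, pk_succ]
    by_cases hjn : j = n
    · subst hjn
      rw [Nat.add_mul_div_right _ _ (pow_pos hB _), Nat.div_eq_of_lt (pk_lt w a ha _), zero_add,
        Nat.mod_eq_of_lt (ha _)]
    · have hlt : j < n := by omega
      have h1 := ih j hlt
      rw [gt_eq] at h1
      obtain ⟨m, rfl⟩ : ∃ m, n = j + (m + 1) := ⟨n - j - 1, by omega⟩
      have e : a (j + (m + 1)) * (2 ^ w) ^ (j + (m + 1)) =
          (a (j + (m + 1)) * (2 ^ w) ^ m * 2 ^ w) * (2 ^ w) ^ j := by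
        rw [pow_add, pow_succ]; ring
      rw [e, Nat.add_mul_div_right _ _ (pow_pos hB _), Nat.add_mul_mod_self_right]
      exact h1

/-- linear combination of packed numbers -/
theorem ac_pk (w : ℕ) (c : ℕ → ℕ) (a : ℕ → ℕ → ℕ) (K n : ℕ) :
    ac c (fun k => pk w (a k) n) K = pk w (fun j => ∑ k ∈ Finset.range K, c k * a k j) n := by
  rw [ac_eq, pk_eq]
  simp only [pk_eq, Finset.mul_sum, Finset.sum_mul]
  rw [Finset.sum_comm]
  refine Finset.sum_congr rfl (fun j _ => Finset.sum_congr rfl (fun k _ => by ring))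

end Pool.Agent.CH6.K3
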