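import Pool.Agent.Helper57_CH6.Fin6v

/-!
Symmetry and automorphism invariance of a packed table, checked by the kernel.
-/

set_option autoImplicit false

namespace Pool.Agent.CH6.K3

open Pool.Agent.CH Pool.Agent.CH6

/-- all allowed pairs `g ≤ f` of profiles -/
noncomputable def pairC (t : ℕ) (p : ℕ → ℕ → Bool) : Bool :=
  allN 81 (fun f => cond (okpB t f) (allN (Nat.succ f) (fun g => cond (okpB t g) (p f g) true)) true)

theorem pairC_spec {t : ℕ} {p : ℕ → ℕ → Bool} (h : pairC t p = true) {f g : ℕ} (hf : f < 81)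
    (hgf : g ≤ f) (of : okpB t f = true) (og : okpB t g = true) : p f g = true := by
  have h1 := allN_spec h f hf
  rw [of, cond_true] at h1
  have h2 := allN_spec h1 g (by omega)
  rw [og, cond_true] at h2
  exact h2

/-- symmetry of the table over `t` -/
noncomputable def symC (tw : ℕ → ℕ → ℕ → ℕ → ℕ) (t : ℕ) : Bool :=
  pairC t (fun f g => and (Nat.beq (tw t f g 0) (tw t g f 0))
    (and (Nat.beq (tw t f g 1) (tw t g f 2)) (Nat.beq (tw t f g 2) (tw t g f 1))))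

theorem sym_of (tw : ℕ → ℕ → ℕ → ℕ → ℕ) (t : ℕ) (h : symC tw t = true) :
    ∀ f g r, f < 81 → g < 81 → r < 3 → okpB t f = true → okpB t g = true →
      tw t f g r = tw t g f (inv r) := by
  have key : ∀ f g r, f < 81 → g ≤ f → r < 3 → okpB t f = true → okpB t g = true →
      tw t f g r = tw t g f (inv r) ∧ tw t g f r = tw t f g (inv r) := by
    intro f g r hf hgf hr of og
    have h1 := pairC_spec h hf hgf of og
    have h2 : and (Nat.beq (tw t f g 0) (tw t g f 0))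
      (and (Nat.beq (tw t f g 1) (tw t g f 2)) (Nat.beq (tw t f g 2) (tw t g f 1))) = true := h1
    rw [Bool.and_eq_true, Bool.and_eq_true] at h2
    have e0 := Nat.eq_of_beq_eq_true h2.1
    have e1 := Nat.eq_of_beq_eq_true h2.2.1
    have e2 := Nat.eq_of_beq_eq_true h2.2.2
    have : r = 0 ∨ r = 1 ∨ r = 2 := by omega
    rcases this with rfl | rfl | rfl
    · exact ⟨e0, e0.symm⟩
    · exact ⟨e1, e2.symm⟩
    · exact ⟨e2, e1.symm⟩
  intro f g r hf hg hr of og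
  by_cases hgf : g ≤ f
  · exact (key f g r hf hgf hr of og).1
  · exact (key g f r hg (by omega) hr og of).2

/-- relation code of the roots `a ≠ b` of the type `t` -/
def tr (t a b : ℕ) : ℕ :=
  cond (Nat.ble (Nat.succ a) b) (d3 t (Nat.add (Nat.div (Nat.mul b (Nat.sub b 1)) 2) a))
    (iv (d3 t (Nat.add (Nat.div (Nat.mul a (Nat.sub a 1)) 2) b)))

/-- permuted profile -/
def pf (s0 s1 s2 s3 f : ℕ) : ℕ :=
  Nat.add (d3 f s0) (Nat.add (Nat.mul 3 (d3 f s1)) (Nat.add (Nat.mul 9 (d3 f s2))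
    (Nat.mul 27 (d3 f s3))))

/-- permuted type -/
def tf (s0 s1 s2 s3 t : ℕ) : ℕ :=
  Nat.add (tr t s0 s1) (Nat.add (Nat.mul 3 (tr t s0 s2)) (Nat.add (Nat.mul 9 (tr t s1 s2))
    (Nat.add (Nat.mul 27 (tr t s0 s3)) (Nat.add (Nat.mul 81 (tr t s1 s3))
      (Nat.mul 243 (tr t s2 s3))))))

/-- invariance under one permutation -/
noncomputable def aut1 (tw : ℕ → ℕ → ℕ → ℕ → ℕ) (t s0 s1 s2 s3 : ℕ) : Bool :=
  cond (Nat.beq (tf s0 s1 s2 s3 t) t)
    (pairC t (fun f g => and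
      (Nat.beq (tw t (pf s0 s1 s2 s3 f) (pf s0 s1 s2 s3 g) 0) (tw t f g 0))
      (and (Nat.beq (tw t (pf s0 s1 s2 s3 f) (pf s0 s1 s2 s3 g) 1) (tw t f g 1))
        (Nat.beq (tw t (pf s0 s1 s2 s3 f) (pf s0 s1 s2 s3 g) 2) (tw t f g 2))))) true

/-- invariance under all automorphisms of `t` -/
noncomputable def autC (tw : ℕ → ℕ → ℕ → ℕ → ℕ) (t : ℕ) : Bool :=
  allN 4 (fun s0 => allN 4 (fun s1 => cond (Nat.beq s0 s1) true
    (allN 4 (fun s2 => cond (or (Nat.beq s0 s2) (Nat.beq s1 s2)) true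
      (allN 4 (fun s3 => cond (or (Nat.beq s0 s3) (or (Nat.beq s1 s3) (Nat.beq s2 s3))) true
        (aut1 tw t s0 s1 s2 s3)))))))

theorem beq_ne {a b : ℕ} (h : a ≠ b) : Nat.beq a b = false := by
  rw [Bool.eq_false_iff]
  intro h3
  exact h (Nat.eq_of_beq_eq_true h3)

theorem autC_spec (tw : ℕ → ℕ → ℕ → ℕ → ℕ) (t : ℕ) (h : autC tw t = true)
    (σ : Equiv.Perm (Fin 4)) : aut1 tw t (σ 0) (σ 1) (σ 2) (σ 3) = true := by
  have ne : ∀ i j : Fin 4, i ≠ j → ((σ i : Fin 4) : ℕ) ≠ (σ j : Fin 4) := by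
    intro i j hij h
    exact hij (σ.injective (Fin.ext h))
  have h0 := allN_spec h (σ 0) (σ 0).2
  have h1 := allN_spec h0 (σ 1) (σ 1).2
  rw [beq_ne (ne 0 1 (by decide)), cond_false] at h1
  have h2 := allN_spec h1 (σ 2) (σ 2).2
  rw [beq_ne (ne 0 2 (by decide)), beq_ne (ne 1 2 (by decide)), Bool.or_false, cond_false] at h2
  have h3 := allN_spec h2 (σ 3) (σ 3).2
  rw [beq_ne (ne 0 3 (by decide)), beq_ne (ne 1 3 (by decide)), beq_ne (ne 2 3 (by decide)),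
    Bool.or_false, Bool.or_false, cond_false] at h3
  exact h3

/-- digits of a code -/
theorem tr_code (d : Fin 4 → Fin 4 → ℕ) (hd : ∀ i j, d i j < 3) (ha : ∀ i j, d j i = inv (d i j))
    (i j : Fin 4) (hij : i ≠ j) : tr (code4 d) i j = d i j := by
  unfold tr
  by_cases hlt : i < j
  · have : Nat.ble (Nat.succ (i : ℕ)) (j : ℕ) = true := Nat.ble_eq_true_of_le hlt
    rw [this, cond_true]
    exact code_dg d hd i j hlt
  · have h1 : Nat.ble (Nat.succ (i : ℕ)) (j : ℕ) = false := by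
      rw [Bool.eq_false_iff]
      intro h4
      exact hlt (Nat.le_of_ble_eq_true h4)
    have hgt : j < i := lt_of_le_of_ne (not_lt.1 hlt) (Ne.symm hij)
    rw [h1, cond_false, iv_eq (d3_lt _ _)]
    have h2 : d3 (code4 d) (Nat.add (Nat.div (Nat.mul (i : ℕ) (Nat.sub (i : ℕ) 1)) 2) (j : ℕ)) =
        d j i := code_dg d hd j i hgt
    rw [h2, ha j i]

theorem tf_code (d : Fin 4 → Fin 4 → ℕ) (hd : ∀ i j, d i j < 3) (ha : ∀ i j, d j i = inv (d i j))
    (σ : Equiv.Perm (Fin 4)) :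
    tf (σ 0) (σ 1) (σ 2) (σ 3) (code4 d) = code4 (fun i j => d (σ i) (σ j)) := by
  have ne : ∀ i j : Fin 4, i ≠ j → σ i ≠ σ j := fun i j hij h => hij (σ.injective h)
  unfold tf
  rw [tr_code d hd ha _ _ (ne 0 1 (by decide)), tr_code d hd ha _ _ (ne 0 2 (by decide)),
    tr_code d hd ha _ _ (ne 1 2 (by decide)), tr_code d hd ha _ _ (ne 0 3 (by decide)),
    tr_code d hd ha _ _ (ne 1 3 (by decide)), tr_code d hd ha _ _ (ne 2 3 (by decide))]
  unfold code4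
  simp only [Nat.add_eq, Nat.mul_eq]
  omega

theorem pf_prof (F : Fin 4 → ℕ) (hF : ∀ i, F i < 3) (σ : Equiv.Perm (Fin 4)) :
    pf (σ 0) (σ 1) (σ 2) (σ 3) (prof4 F) = prof4 (fun i => F (σ i)) := by
  have h : ∀ i : Fin 4, d3 (prof4 F) i = F i := fun i => dg_prof F hF i
  unfold pf
  rw [h, h, h, h]
  unfold prof4
  simp only [Nat.add_eq, Nat.mul_eq]
  omega

/-- AUTOMORPHISM INVARIANCE of the table. -/
theorem aut_of (tw : ℕ → ℕ → ℕ → ℕ → ℕ) (d : Fin 4 → Fin 4 → ℕ) (hd : ∀ i j, d i j < 3)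
    (ha : ∀ i j, d j i = inv (d i j)) (hs : symC tw (code4 d) = true)
    (h : autC tw (code4 d) = true) (σ : Equiv.Perm (Fin 4))
    (hσ : code4 (fun i j => d (σ i) (σ j)) = code4 d) (F G : Fin 4 → ℕ) (hF : ∀ i, F i < 3)
    (hG : ∀ i, G i < 3) (r : ℕ) (hr : r < 3) (oF : okpB (code4 d) (prof4 F) = true)
    (oG : okpB (code4 d) (prof4 G) = true)
    (oF' : okpB (code4 d) (prof4 (fun i => F (σ i))) = true)
    (oG' : okpB (code4 d) (prof4 (fun i => G (σ i))) = true) :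
    tw (code4 d) (prof4 (fun i => F (σ i))) (prof4 (fun i => G (σ i))) r =
      tw (code4 d) (prof4 F) (prof4 G) r := by
  have h1 := autC_spec tw _ h σ
  unfold aut1 at h1
  have e : Nat.beq (tf (σ 0) (σ 1) (σ 2) (σ 3) (code4 d)) (code4 d) = true := by
    rw [tf_code d hd ha σ, hσ]
    exact Nat.beq_refl _
  rw [e, cond_true] at h1
  have key : ∀ F G : Fin 4 → ℕ, (∀ i, F i < 3) → (∀ i, G i < 3) → prof4 G ≤ prof4 F →
      okpB (code4 d) (prof4 F) = true → okpB (code4 d) (prof4 G) = true → ∀ r, r < 3 →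
      tw (code4 d) (prof4 (fun i => F (σ i))) (prof4 (fun i => G (σ i))) r =
        tw (code4 d) (prof4 F) (prof4 G) r := by
    intro F G hF hG hle oF oG r hr
    have h2 := pairC_spec h1 (prof_lt F hF) hle oF oG
    have h3 : and
      (Nat.beq (tw (code4 d) (pf (σ 0) (σ 1) (σ 2) (σ 3) (prof4 F))
        (pf (σ 0) (σ 1) (σ 2) (σ 3) (prof4 G)) 0) (tw (code4 d) (prof4 F) (prof4 G) 0))
      (and (Nat.beq (tw (code4 d) (pf (σ 0) (σ 1) (σ 2) (σ 3) (prof4 F))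
        (pf (σ 0) (σ 1) (σ 2) (σ 3) (prof4 G)) 1) (tw (code4 d) (prof4 F) (prof4 G) 1))
        (Nat.beq (tw (code4 d) (pf (σ 0) (σ 1) (σ 2) (σ 3) (prof4 F))
        (pf (σ 0) (σ 1) (σ 2) (σ 3) (prof4 G)) 2) (tw (code4 d) (prof4 F) (prof4 G) 2))) = true :=
      h2
    rw [pf_prof F hF, pf_prof G hG, Bool.and_eq_true, Bool.and_eq_true] at h3
    have e0 := Nat.eq_of_beq_eq_true h3.1
    have e1 := Nat.eq_of_beq_eq_true h3.2.1
    have e2 := Nat.eq_of_beq_eq_true h3.2.2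
    have : r = 0 ∨ r = 1 ∨ r = 2 := by omega
    rcases this with rfl | rfl | rfl
    · exact e0
    · exact e1
    · exact e2
  by_cases hle : prof4 G ≤ prof4 F
  · exact key F G hF hG hle oF oG r hr
  · have h4 := key G F hG hF (by omega) oG oF (inv r) (inv_lt r)
    have ii : inv (inv r) = r := by
      have : r = 0 ∨ r = 1 ∨ r = 2 := by omega
      rcases this with rfl | rfl | rfl <;> rfl
    have s1 := sym_of tw _ hs (prof4 (fun i => F (σ i))) (prof4 (fun i => G (σ i))) r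
      (prof_lt _ (fun i => hF _)) (prof_lt _ (fun i => hG _)) hr oF' oG'
    have s2 := sym_of tw _ hs (prof4 F) (prof4 G) r (prof_lt _ hF) (prof_lt _ hG) hr oF oG
    rw [s1, s2]
    exact h4

/-- allowed profiles of a configuration -/
theorem okpB_cfg {n : ℕ} (d : Fin n → Fin n → ℕ) (hd : Cfg d) (ρ : Fin 4 → Fin n) (p : Fin n) :
    okpB (code4 (fun i j => d (ρ i) (ρ j))) (prof4 (fun i => d (ρ i) p)) = true := by
  have lt := fun i j : Fin 4 => hd.lt (ρ i) (ρ j)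
  have la := fun i : Fin 4 => hd.lt (ρ i) p
  have ot := fun i j : Fin 4 => hd.ok (ρ i) (ρ j) p
  have f0 : d3 (prof4 (fun i => d (ρ i) p)) 0 = d (ρ 0) p := dg_prof (fun i => d (ρ i) p) la 0
  have f1 : d3 (prof4 (fun i => d (ρ i) p)) 1 = d (ρ 1) p := dg_prof (fun i => d (ρ i) p) la 1
  have f2 : d3 (prof4 (fun i => d (ρ i) p)) 2 = d (ρ 2) p := dg_prof (fun i => d (ρ i) p) la 2
  have f3 : d3 (prof4 (fun i => d (ρ i) p)) 3 = d (ρ 3) p := dg_prof (fun i => d (ρ i) p) la 3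
  have t0 : d3 (code4 (fun i j => d (ρ i) (ρ j))) 0 = d (ρ 0) (ρ 1) :=
    code_dg (fun i j => d (ρ i) (ρ j)) lt 0 1 (by decide)
  have t1 : d3 (code4 (fun i j => d (ρ i) (ρ j))) 1 = d (ρ 0) (ρ 2) :=
    code_dg (fun i j => d (ρ i) (ρ j)) lt 0 2 (by decide)
  have t2 : d3 (code4 (fun i j => d (ρ i) (ρ j))) 2 = d (ρ 1) (ρ 2) :=
    code_dg (fun i j => d (ρ i) (ρ j)) lt 1 2 (by decide)
  have t3 : d3 (code4 (fun i j => d (ρ i) (ρ j))) 3 = d (ρ 0) (ρ 3) :=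
    code_dg (fun i j => d (ρ i) (ρ j)) lt 0 3 (by decide)
  have t4 : d3 (code4 (fun i j => d (ρ i) (ρ j))) 4 = d (ρ 1) (ρ 3) :=
    code_dg (fun i j => d (ρ i) (ρ j)) lt 1 3 (by decide)
  have t5 : d3 (code4 (fun i j => d (ρ i) (ρ j))) 5 = d (ρ 2) (ρ 3) :=
    code_dg (fun i j => d (ρ i) (ρ j)) lt 2 3 (by decide)
  unfold okpB
  rw [f0, f1, f2, f3, t0, t1, t2, t3, t4, t5,
    okb_of (lt 0 1) (la 1) (la 0) (ot 0 1), okb_of (lt 0 2) (la 2) (la 0) (ot 0 2),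
    okb_of (lt 1 2) (la 2) (la 1) (ot 1 2), okb_of (lt 0 3) (la 3) (la 0) (ot 0 3),
    okb_of (lt 1 3) (la 3) (la 1) (ot 1 3), okb_of (lt 2 3) (la 3) (la 2) (ot 2 3)]
  rfl

end Pool.Agent.CH6.K3
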